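import Mathlib
import Pool.Agent.H952R2.Sextic.CommonZero

/-! # Linear syzygies of three quadratic forms in three variables without common zero -/

set_option autoImplicit false

namespace Pool.Agent.R572.Rig

open Matrix

/-- value of the quadratic form with coefficients `r` -/
def qf (r : Fin 3 → Fin 3 → ℂ) (u : Fin 3 → ℂ) : ℂ := ∑ i, ∑ j, r i j * u i * u j

theorem qf_eq (r : Fin 3 → Fin 3 → ℂ) (u : Fin 3 → ℂ) :
    qf r u = r 0 0 * u 0 ^ 2 + r 1 1 * u 1 ^ 2 + r 2 2 * u 2 ^ 2 + (r 0 1 + r 1 0) * u 0 * u 1 +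
      (r 0 2 + r 2 0) * u 0 * u 2 + (r 1 2 + r 2 1) * u 1 * u 2 := by
  simp only [qf, Fin.sum_univ_three]
  ring

/-- a cubic form that vanishes everywhere has zero coefficients -/
theorem cubic_zero (c : Fin 10 → ℂ)
    (h : ∀ x y z : ℂ, c 0 * x ^ 3 + c 1 * y ^ 3 + c 2 * z ^ 3 + c 3 * x ^ 2 * y + c 4 * x ^ 2 * z +
      c 5 * x * y ^ 2 + c 6 * y ^ 2 * z + c 7 * x * z ^ 2 + c 8 * y * z ^ 2 + c 9 * x * y * z = 0) :
    ∀ i, c i = 0 := by
  have h0 : c 0 = 0 := by linear_combination h 1 0 0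
  have h1 : c 1 = 0 := by linear_combination h 0 1 0
  have h2 : c 2 = 0 := by linear_combination h 0 0 1
  have h3 : c 3 = 0 := by linear_combination (h 1 1 0 - h 1 (-1) 0) / 2 - h1
  have h5 : c 5 = 0 := by linear_combination (h 1 1 0 + h 1 (-1) 0) / 2 - h0
  have h4 : c 4 = 0 := by linear_combination (h 1 0 1 - h 1 0 (-1)) / 2 - h2
  have h7 : c 7 = 0 := by linear_combination (h 1 0 1 + h 1 0 (-1)) / 2 - h0
  have h6 : c 6 = 0 := by linear_combination (h 0 1 1 - h 0 1 (-1)) / 2 - h2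
  have h8 : c 8 = 0 := by linear_combination (h 0 1 1 + h 0 1 (-1)) / 2 - h1
  have h9 : c 9 = 0 := by
    linear_combination h 1 1 1 - h0 - h1 - h2 - h3 - h4 - h5 - h6 - h7 - h8
  intro i
  fin_cases i <;> assumption

/-- the ten coefficient equations -/
theorem coeffs (d : Fin 3 → ℂ) (r : Fin 3 → Fin 3 → Fin 3 → ℂ)
    (h : ∀ u : Fin 3 → ℂ, ∑ l, d l * u l * qf (r l) u = 0) :
    d 0 * r 0 0 0 = 0 ∧ d 1 * r 1 1 1 = 0 ∧ d 2 * r 2 2 2 = 0 ∧
    d 0 * (r 0 0 1 + r 0 1 0) + d 1 * r 1 0 0 = 0 ∧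
    d 0 * (r 0 0 2 + r 0 2 0) + d 2 * r 2 0 0 = 0 ∧
    d 0 * r 0 1 1 + d 1 * (r 1 0 1 + r 1 1 0) = 0 ∧
    d 1 * (r 1 1 2 + r 1 2 1) + d 2 * r 2 1 1 = 0 ∧
    d 0 * r 0 2 2 + d 2 * (r 2 0 2 + r 2 2 0) = 0 ∧
    d 1 * r 1 2 2 + d 2 * (r 2 1 2 + r 2 2 1) = 0 ∧
    d 0 * (r 0 1 2 + r 0 2 1) + d 1 * (r 1 0 2 + r 1 2 0) + d 2 * (r 2 0 1 + r 2 1 0) = 0 := by
  have key := cubic_zero ![d 0 * r 0 0 0, d 1 * r 1 1 1, d 2 * r 2 2 2,
    d 0 * (r 0 0 1 + r 0 1 0) + d 1 * r 1 0 0,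
    d 0 * (r 0 0 2 + r 0 2 0) + d 2 * r 2 0 0,
    d 0 * r 0 1 1 + d 1 * (r 1 0 1 + r 1 1 0),
    d 1 * (r 1 1 2 + r 1 2 1) + d 2 * r 2 1 1,
    d 0 * r 0 2 2 + d 2 * (r 2 0 2 + r 2 2 0),
    d 1 * r 1 2 2 + d 2 * (r 2 1 2 + r 2 2 1),
    d 0 * (r 0 1 2 + r 0 2 1) + d 1 * (r 1 0 2 + r 1 2 0) + d 2 * (r 2 0 1 + r 2 1 0)]
    (by
      intro x y z
      have := h ![x, y, z]
      simp only [Fin.sum_univ_three, qf_eq] at this
      simp at this ⊢
      linear_combination this)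
  exact ⟨key 0, key 1, key 2, key 3, key 4, key 5, key 6, key 7, key 8, key 9⟩

/-- two homogeneous polynomial functions in three variables have a common nonzero zero -/
theorem two_zero (f g : MvPolynomial (Fin 3) ℂ) (hf : MvPolynomial.eval 0 f = 0)
    (hg : MvPolynomial.eval 0 g = 0) :
    ∃ u : Fin 3 → ℂ, u ≠ 0 ∧ MvPolynomial.eval u f = 0 ∧ MvPolynomial.eval u g = 0 := by
  obtain ⟨u, hu, h⟩ := Pool.Agent.H952R2.Sextic.exists_common_zero (K := ℂ) (ι := Fin 3)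
    (κ := Fin 2) (by simp) ![f, g] (by
      intro k
      fin_cases k
      · exact hf
      · exact hg)
  exact ⟨u, hu, h 0, h 1⟩

/-- the quadratic form as a polynomial -/
noncomputable def qp (r : Fin 3 → Fin 3 → ℂ) : MvPolynomial (Fin 3) ℂ :=
  ∑ i, ∑ j, MvPolynomial.C (r i j) * MvPolynomial.X i * MvPolynomial.X j

theorem eval_qp (r : Fin 3 → Fin 3 → ℂ) (u : Fin 3 → ℂ) : MvPolynomial.eval u (qp r) = qf r u := by
  simp [qp, qf]

theorem eval0_qp (r : Fin 3 → Fin 3 → ℂ) : MvPolynomial.eval 0 (qp r) = 0 := by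
  rw [eval_qp]; simp [qf]

theorem core2 (d : Fin 3 → ℂ) (r : Fin 3 → Fin 3 → Fin 3 → ℂ)
    (h : ∀ u : Fin 3 → ℂ, ∑ l, d l * u l * qf (r l) u = 0)
    (hz : ∀ u : Fin 3 → ℂ, (∀ l, qf (r l) u = 0) → u = 0) (h0 : d 0 ≠ 0) (h2 : d 2 = 0) :
    False := by
  obtain ⟨e0, e1, e2, e3, e4, e5, e6, e7, e8, e9⟩ := coeffs d r h
  simp only [h2, zero_mul, add_zero] at e2 e4 e6 e7 e8 e9
  have a1 : r 0 0 0 = 0 := by simpa [h0] using e0
  have a2 : r 0 0 2 + r 0 2 0 = 0 := by simpa [h0] using e4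
  have a3 : r 0 2 2 = 0 := by simpa [h0] using e7
  by_cases h1 : d 1 = 0
  · simp only [h1, zero_mul, add_zero] at e3 e5 e9
    have a4 : r 0 0 1 + r 0 1 0 = 0 := by simpa [h0] using e3
    have a5 : r 0 1 1 = 0 := by simpa [h0] using e5
    have a6 : r 0 1 2 + r 0 2 1 = 0 := by simpa [h0] using e9
    obtain ⟨u, hu, hf, hg⟩ := two_zero (qp (r 1)) (qp (r 2)) (eval0_qp _) (eval0_qp _)
    rw [eval_qp] at hf hg
    refine hu (hz u ?_)
    intro l
    fin_cases l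
    · show qf (r 0) u = 0
      rw [qf_eq, a1, a2, a3, a4, a5, a6]; ring
    · exact hf
    · exact hg
  · have b1 : r 1 1 1 = 0 := by simpa [h1] using e1
    have b2 : r 1 1 2 + r 1 2 1 = 0 := by simpa [h1] using e6
    have b3 : r 1 2 2 = 0 := by simpa [h1] using e8
    obtain ⟨u, hu, hf, hg⟩ := two_zero
      (MvPolynomial.C (d 0 * (r 0 0 1 + r 0 1 0)) * MvPolynomial.X 0 +
        MvPolynomial.C (d 0 * r 0 1 1) * MvPolynomial.X 1 +
        MvPolynomial.C (d 0 * (r 0 1 2 + r 0 2 1)) * MvPolynomial.X 2) (qp (r 2)) (by simp)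
      (eval0_qp _)
    rw [eval_qp] at hg
    simp only [map_add, map_mul, MvPolynomial.eval_C, MvPolynomial.eval_X] at hf
    refine hu (hz u ?_)
    intro l
    fin_cases l
    · show qf (r 0) u = 0
      rw [qf_eq, a1, a2, a3]
      have : d 0 * (r 0 1 1 * u 1 ^ 2 + (r 0 0 1 + r 0 1 0) * u 0 * u 1 +
        (r 0 1 2 + r 0 2 1) * u 1 * u 2) = 0 := by linear_combination u 1 * hf
      have := (mul_eq_zero.1 this).resolve_left h0
      linear_combination this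
    · show qf (r 1) u = 0
      rw [qf_eq, b1, b2, b3]
      have : d 1 * (r 1 0 0 * u 0 ^ 2 + (r 1 0 1 + r 1 1 0) * u 0 * u 1 +
        (r 1 0 2 + r 1 2 0) * u 0 * u 2) = 0 := by
        linear_combination u 0 ^ 2 * e3 + u 0 * u 1 * e5 + u 0 * u 2 * e9 - u 0 * hf
      have := (mul_eq_zero.1 this).resolve_left h1
      linear_combination this
    · exact hg

theorem core3 (d : Fin 3 → ℂ) (r : Fin 3 → Fin 3 → Fin 3 → ℂ)
    (h : ∀ u : Fin 3 → ℂ, ∑ l, d l * u l * qf (r l) u = 0)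
    (hz : ∀ u : Fin 3 → ℂ, (∀ l, qf (r l) u = 0) → u = 0) (h0 : d 0 ≠ 0) (h1 : d 1 ≠ 0)
    (h2 : d 2 ≠ 0) : False := by
  obtain ⟨e0, e1, e2, e3, e4, e5, e6, e7, e8, e9⟩ := coeffs d r h
  set A : Matrix (Fin 3) (Fin 3) ℂ :=
    !![0, d 1 * (r 1 1 2 + r 1 2 1), d 1 * r 1 2 2;
       d 2 * r 2 0 0, d 2 * (r 2 0 1 + r 2 1 0), d 2 * (r 2 0 2 + r 2 2 0);
       d 0 * (r 0 0 1 + r 0 1 0), d 0 * r 0 1 1, - (d 1 * (r 1 0 2 + r 1 2 0))] with hA
  obtain ⟨c, hc⟩ := Module.End.exists_eigenvalue (Matrix.toLin' A)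
  obtain ⟨u, hu⟩ := hc.exists_hasEigenvector
  have hu1 := hu.apply_eq_smul
  have hu0 : u ≠ 0 := hu.2
  rw [Matrix.toLin'_apply] at hu1
  have g0 := congrFun hu1 0
  have g1 := congrFun hu1 1
  have g2 := congrFun hu1 2
  simp only [hA, Matrix.mulVec, dotProduct, Fin.sum_univ_three, Pi.smul_apply, smul_eq_mul] at g0 g1 g2
  simp at g0 g1 g2
  refine hu0 (hz u ?_)
  intro l
  fin_cases l
  · show qf (r 0) u = 0
    have : d 0 * qf (r 0) u = 0 := by
      rw [qf_eq]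
      linear_combination u 0 ^ 2 * e0 + u 1 * g2 - u 2 * g1 + u 0 * u 2 * e4 + u 2 ^ 2 * e7 +
        u 1 * u 2 * e9
    exact (mul_eq_zero.1 this).resolve_left h0
  · show qf (r 1) u = 0
    have : d 1 * qf (r 1) u = 0 := by
      rw [qf_eq]
      linear_combination u 1 ^ 2 * e1 + u 2 * g0 - u 0 * g2 + u 0 ^ 2 * e3 + u 0 * u 1 * e5
    exact (mul_eq_zero.1 this).resolve_left h1
  · show qf (r 2) u = 0
    have : d 2 * qf (r 2) u = 0 := by
      rw [qf_eq]
      linear_combination u 2 ^ 2 * e2 + u 0 * g1 - u 1 * g0 + u 1 ^ 2 * e6 + u 1 * u 2 * e8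
    exact (mul_eq_zero.1 this).resolve_left h2

theorem diag (d : Fin 3 → ℂ) (r : Fin 3 → Fin 3 → Fin 3 → ℂ)
    (h : ∀ u : Fin 3 → ℂ, ∑ l, d l * u l * qf (r l) u = 0)
    (hz : ∀ u : Fin 3 → ℂ, (∀ l, qf (r l) u = 0) → u = 0) : d = 0 := by
  by_contra hd
  obtain ⟨i, hi⟩ : ∃ i, d i ≠ 0 := by
    by_contra hcon
    push Not at hcon
    exact hd (funext hcon)
  by_cases hall : ∀ k, d k ≠ 0
  · exact core3 d r h hz (hall 0) (hall 1) (hall 2)
  · push Not at hall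
    obtain ⟨k, hk⟩ := hall
    have hik : i ≠ k := by rintro rfl; exact hi hk
    obtain ⟨σ, hσ0, hσ2⟩ : ∃ σ : Equiv.Perm (Fin 3), σ 0 = i ∧ σ 2 = k := by
      have key : ∀ i k : Fin 3, i ≠ k → ∃ σ : Equiv.Perm (Fin 3), σ 0 = i ∧ σ 2 = k := by decide
      exact key i k hik
    refine core2 (fun l => d (σ l)) (fun l a b => r (σ l) (σ a) (σ b)) ?_ ?_ (by rwa [hσ0])
      (by rwa [hσ2])
    · intro u
      have h1 := h (fun i => u (σ.symm i))
      rw [← h1]
      rw [← Equiv.sum_comp σ (fun l => d l * u (σ.symm l) * qf (r l) fun i => u (σ.symm i))]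
      refine Finset.sum_congr rfl fun l _ => ?_
      have : qf (r (σ l)) (fun i => u (σ.symm i)) = qf (fun a b => r (σ l) (σ a) (σ b)) u := by
        unfold qf
        rw [← Equiv.sum_comp σ]
        refine Finset.sum_congr rfl fun a _ => ?_
        rw [← Equiv.sum_comp σ]
        simp
      rw [this]
      simp
    · intro u hu
      have h1 := hz (fun i => u (σ.symm i)) (by
        intro l
        have h2 := hu (σ.symm l)
        have : qf (r l) (fun i => u (σ.symm i)) =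
            qf (fun a b => r (σ (σ.symm l)) (σ a) (σ b)) u := by
          unfold qf
          rw [← Equiv.sum_comp σ]
          refine Finset.sum_congr rfl fun a _ => ?_
          rw [← Equiv.sum_comp σ]
          simp
        rw [this]; exact h2)
      funext i
      have := congrFun h1 (σ i)
      simpa using this

theorem syz (L : Matrix (Fin 3) (Fin 3) ℂ) (q : Fin 3 → Fin 3 → Fin 3 → ℂ)
    (h : ∀ u : Fin 3 → ℂ, ∑ l, (∑ i, L l i * u i) * qf (q l) u = 0)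
    (hz : ∀ u : Fin 3 → ℂ, (∀ l, qf (q l) u = 0) → u = 0) : L = 0 := by
  obtain ⟨L1, L2, D, hD⟩ := Matrix.Pivot.exists_list_transvec_mul_mul_list_transvec_eq_diagonal L
  set S := (L1.map TransvectionStruct.toMatrix).prod with hS
  set P := (L2.map TransvectionStruct.toMatrix).prod with hP
  have hSdet : S.det = 1 := by rw [hS]; exact Matrix.TransvectionStruct.det_toMatrix_prod L1
  have hPdet : P.det = 1 := by rw [hP]; exact Matrix.TransvectionStruct.det_toMatrix_prod L2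
  have hSu : IsUnit S.det := by rw [hSdet]; exact isUnit_one
  have hPu : IsUnit P.det := by rw [hPdet]; exact isUnit_one
  set r : Fin 3 → Fin 3 → Fin 3 → ℂ := fun l i j =>
    ∑ m, S⁻¹ m l * ∑ a, ∑ b, q m a b * P a i * P b j with hr
  have hrq : ∀ l u, qf (r l) u = ∑ m, S⁻¹ m l * qf (q m) (P *ᵥ u) := by
    intro l u
    simp only [qf, hr, Matrix.mulVec, dotProduct, Fin.sum_univ_three]
    ring
  have hD0 : D = 0 := by
    refine diag D r ?_ ?_
    · intro u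
      have h1 := h (P *ᵥ u)
      rw [← h1]
      have h2 : ∀ l, D l * u l = (S *ᵥ (L *ᵥ (P *ᵥ u))) l := by
        intro l
        rw [Matrix.mulVec_mulVec, Matrix.mulVec_mulVec, hD,
          Matrix.mulVec_diagonal]
      have h3 : ∀ m, ∑ l, S⁻¹ m l * (D l * u l) = (L *ᵥ (P *ᵥ u)) m := by
        intro m
        have h4 : S⁻¹ *ᵥ (S *ᵥ (L *ᵥ (P *ᵥ u))) = L *ᵥ (P *ᵥ u) := by
          rw [Matrix.mulVec_mulVec, Matrix.nonsing_inv_mul _ hSu, Matrix.one_mulVec]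
        rw [← h4]
        simp only [Matrix.mulVec, dotProduct]
        refine Finset.sum_congr rfl fun l _ => ?_
        rw [h2 l]
        simp only [Matrix.mulVec, dotProduct]
      calc ∑ l, D l * u l * qf (r l) u
          = ∑ l, ∑ m, (S⁻¹ m l * (D l * u l)) * qf (q m) (P *ᵥ u) := by
            refine Finset.sum_congr rfl fun l _ => ?_
            rw [hrq, Finset.mul_sum]
            refine Finset.sum_congr rfl fun m _ => ?_
            ring
        _ = ∑ m, (∑ l, S⁻¹ m l * (D l * u l)) * qf (q m) (P *ᵥ u) := by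
            rw [Finset.sum_comm]
            refine Finset.sum_congr rfl fun m _ => ?_
            rw [Finset.sum_mul]
        _ = _ := by
            refine Finset.sum_congr rfl fun m _ => ?_
            rw [h3]
            rfl
    · intro u hu
      have h1 : ∀ m, qf (q m) (P *ᵥ u) = 0 := by
        intro m
        have h2 : ∀ l, ∑ m, S⁻¹ m l * qf (q m) (P *ᵥ u) = 0 := fun l => by
          rw [← hrq]; exact hu l
        have h3 : (fun m => qf (q m) (P *ᵥ u)) ᵥ* S⁻¹ = 0 := by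
          funext l
          simp only [Matrix.vecMul, dotProduct, Pi.zero_apply]
          rw [← h2 l]
          refine Finset.sum_congr rfl fun m _ => ?_
          ring
        have h4 : (fun m => qf (q m) (P *ᵥ u)) = 0 := by
          have h5 : ((fun m => qf (q m) (P *ᵥ u)) ᵥ* S⁻¹) ᵥ* S = 0 := by
            rw [h3, Matrix.zero_vecMul]
          rwa [Matrix.vecMul_vecMul, Matrix.nonsing_inv_mul _ hSu, Matrix.vecMul_one] at h5
        exact congrFun h4 m
      have h6 := hz _ h1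
      have h7 : P⁻¹ *ᵥ (P *ᵥ u) = 0 := by rw [h6, Matrix.mulVec_zero]
      rwa [Matrix.mulVec_mulVec, Matrix.nonsing_inv_mul _ hPu, Matrix.one_mulVec] at h7
  rw [hD0] at hD
  have h8 : S⁻¹ * (S * L * P) * P⁻¹ = L := by
    rw [Matrix.mul_assoc S L P, ← Matrix.mul_assoc S⁻¹ S, Matrix.nonsing_inv_mul _ hSu,
      Matrix.one_mul, Matrix.mul_assoc, Matrix.mul_nonsing_inv _ hPu, Matrix.mul_one]
  rw [← h8, hD]
  simp

end Pool.Agent.R572.Rig
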