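import Mathlib
import Pool.Agent.Y201.LI.Stm2
import Pool.Agent.W619.PQ.Dual
import Pool.Agent.R572.Rig.Syz

/-! # Planes in a smooth cubic fourfold over an algebraically closed field (job RIG) -/

set_option autoImplicit false

namespace Pool.Agent.R572.Rig

open Pool.Agent.Y201.C3 Matrix

/-- the trilinear form, over `ℂ` -/
def b (T : Fin 6 → Fin 6 → Fin 6 → ℂ) (x y z : Fin 6 → ℂ) : ℂ :=
  ∑ i, ∑ j, ∑ k, T i j k * x i * y j * z k

theorem Bf_eq (T : Fin 6 → Fin 6 → Fin 6 → ℂ) (x y z : Fin 6 → ℂ) : Bf T x y z = b T x y z := by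
  simp [Bf, b]

/-- linearity in the first argument -/
def bl (T : Fin 6 → Fin 6 → Fin 6 → ℂ) (y z : Fin 6 → ℂ) : (Fin 6 → ℂ) →ₗ[ℂ] ℂ where
  toFun x := b T x y z
  map_add' x x' := by
    simp only [b, Pi.add_apply, mul_add, add_mul, Finset.sum_add_distrib]
  map_smul' c x := by
    simp only [b, Pi.smul_apply, smul_eq_mul, RingHom.id_apply, Finset.mul_sum]
    refine Finset.sum_congr rfl fun i _ => Finset.sum_congr rfl fun j _ =>
      Finset.sum_congr rfl fun k _ => ?_
    ring

section
variable {T : Fin 6 → Fin 6 → Fin 6 → ℂ}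

theorem b_swap12 (hs : SymT T) (x y z : Fin 6 → ℂ) : b T x y z = b T y x z := by
  unfold b
  rw [Finset.sum_comm]
  refine Finset.sum_congr rfl fun i _ => Finset.sum_congr rfl fun j _ =>
    Finset.sum_congr rfl fun k _ => ?_
  rw [(hs i j k).1]; ring

theorem b_swap23 (hs : SymT T) (x y z : Fin 6 → ℂ) : b T x y z = b T x z y := by
  unfold b
  refine Finset.sum_congr rfl fun i _ => ?_
  rw [Finset.sum_comm]
  refine Finset.sum_congr rfl fun j _ =>
    Finset.sum_congr rfl fun k _ => ?_
  rw [(hs i j k).2]; ring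

theorem b_sum1 {ι : Type} [Fintype ι] (c : ι → ℂ) (x : ι → Fin 6 → ℂ) (y z : Fin 6 → ℂ) :
    b T (∑ a, c a • x a) y z = ∑ a, c a * b T (x a) y z := by
  show bl T y z _ = _
  rw [map_sum]
  refine Finset.sum_congr rfl fun a _ => ?_
  rw [map_smul]; rfl

theorem b_sum2 (hs : SymT T) {ι : Type} [Fintype ι] (c : ι → ℂ) (x : ι → Fin 6 → ℂ)
    (y z : Fin 6 → ℂ) : b T y (∑ a, c a • x a) z = ∑ a, c a * b T y (x a) z := by
  rw [b_swap12 hs, b_sum1]
  exact Finset.sum_congr rfl fun a _ => by rw [b_swap12 hs]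

theorem b_sum3 (hs : SymT T) {ι : Type} [Fintype ι] (c : ι → ℂ) (x : ι → Fin 6 → ℂ)
    (y z : Fin 6 → ℂ) : b T y z (∑ a, c a • x a) = ∑ a, c a * b T y z (x a) := by
  rw [b_swap23 hs, b_sum2 hs]
  exact Finset.sum_congr rfl fun a _ => by rw [b_swap23 hs]

theorem b_sub1 (x x' y z : Fin 6 → ℂ) : b T (x - x') y z = b T x y z - b T x' y z :=
  (bl T y z).map_sub x x'

theorem b_zero1 (y z : Fin 6 → ℂ) : b T 0 y z = 0 := (bl T y z).map_zero

end

/-- three independent rows have an invertible minor -/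
theorem exists_piv (v : Fin 3 → Fin 6 → ℂ) (hv : LinearIndependent ℂ v) :
    ∃ piv : Fin 3 → Fin 6, Function.Injective piv ∧
      IsUnit (Matrix.of fun i j : Fin 3 => v i (piv j)).det := by
  set M : Matrix (Fin 3) (Fin 6) ℂ := Matrix.of v with hM
  have hrank : M.rank = 3 := by
    have : LinearIndependent ℂ M.row := hv
    rw [this.rank_matrix]; simp
  obtain ⟨κ, a, ha, hsp, hli⟩ := exists_linearIndependent' ℂ M.col
  have hfin : Finite κ := Finite.of_injective a ha
  have := Fintype.ofFinite κ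
  have hcard : Fintype.card κ = 3 := by
    rw [← finrank_span_eq_card hli, hsp, ← Matrix.rank_eq_finrank_span_cols, hrank]
  let e : Fin 3 ≃ κ := (Fintype.equivFinOfCardEq hcard).symm
  refine ⟨a ∘ e, ha.comp e.injective, ?_⟩
  rw [← Matrix.isUnit_iff_isUnit_det, ← Matrix.linearIndependent_cols_iff_isUnit]
  have h1 : LinearIndependent ℂ ((M.col ∘ a) ∘ e) := hli.comp e e.injective
  exact h1

theorem echelon (v : Fin 3 → Fin 6 → ℂ) (hv : LinearIndependent ℂ v) :
    ∃ piv : Fin 3 → Fin 6, Function.Injective piv ∧ ∃ v' : Fin 3 → Fin 6 → ℂ,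
      (∀ i j, v' i (piv j) = if i = j then 1 else 0) ∧
      (∃ N : Matrix (Fin 3) (Fin 3) ℂ, ∀ i, v' i = ∑ m, N i m • v m) ∧
      Submodule.span ℂ (Set.range v') = Submodule.span ℂ (Set.range v) := by
  obtain ⟨piv, hp, hu⟩ := exists_piv v hv
  set N := (Matrix.of fun i j : Fin 3 => v i (piv j)) with hN
  refine ⟨piv, hp, fun i => ∑ m, N⁻¹ i m • v m, ?_, ⟨N⁻¹, fun i => rfl⟩, ?_⟩
  · intro i j
    have h1 := congrFun (congrFun (Matrix.nonsing_inv_mul N hu) i) j
    rw [Matrix.mul_apply, Matrix.one_apply] at h1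
    rw [← h1]
    simp [Finset.sum_apply, hN]
  · apply le_antisymm
    · rw [Submodule.span_le]
      rintro _ ⟨i, rfl⟩
      exact Submodule.sum_mem _ fun m _ => Submodule.smul_mem _ _ (Submodule.subset_span ⟨m, rfl⟩)
    · rw [Submodule.span_le]
      rintro _ ⟨i, rfl⟩
      have h2 : v i = ∑ l, N i l • ∑ m, N⁻¹ l m • v m := by
        have h1 := congrFun (Matrix.mul_nonsing_inv N hu) i
        simp only [Finset.smul_sum, smul_smul]
        rw [Finset.sum_comm]
        simp only [← Finset.sum_smul]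
        have h3 : ∀ m, ∑ l, N i l * N⁻¹ l m = if i = m then 1 else 0 := by
          intro m
          have h4 := congrFun h1 m
          rw [Matrix.mul_apply, Matrix.one_apply] at h4
          exact h4
        simp [h3]
      rw [h2]
      exact Submodule.sum_mem _ fun m _ => Submodule.smul_mem _ _ (Submodule.subset_span ⟨m, rfl⟩)

/-- a derivation of `ℂ` that moves a given element outside an algebraically closed subfield -/
theorem exists_der (k : Subfield ℂ) (hk : IsAlgClosed k) (c : ℂ) (hc : c ∉ k) :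
    ∃ D : Derivation k ℂ ℂ, D c = 1 := by
  have htr : Transcendental k c := by
    intro halg
    apply hc
    have hint : IsIntegral k c := halg.isIntegral
    have hd : (minpoly k c).degree = 1 :=
      IsAlgClosed.degree_eq_one_of_irreducible k (minpoly.irreducible hint)
    obtain ⟨a, ha⟩ := minpoly.mem_range_of_degree_eq_one k c hd
    rw [← ha]; exact a.2
  have hind : AlgebraicIndepOn k id ({c} : Set ℂ) := by
    have : Subsingleton ({c} : Set ℂ) := by
      constructor; rintro ⟨x, hx⟩ ⟨y, hy⟩; simp at hx hy; simp [hx, hy]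
    exact (algebraicIndependent_singleton_iff (⟨c, rfl⟩ : ({c} : Set ℂ))).2 htr
  obtain ⟨t, ht, htb⟩ := exists_isTranscendenceBasis_superset hind
  classical
  obtain ⟨D, hD⟩ := Pool.Agent.W619.PQ.exists_dual _ htb ⟨c, ht rfl⟩
  exact ⟨D, by simpa using hD ⟨c, ht rfl⟩⟩

theorem exists_np (piv : Fin 3 → Fin 6) (hp : Function.Injective piv) :
    ∃ np : Fin 3 → Fin 6, (∀ i, (∃ j, i = piv j) ∨ ∃ l, i = np l) ∧
      ∀ (M : Type) [AddCommMonoid M] (f : Fin 6 → M),
        ∑ i, f i = ∑ j, f (piv j) + ∑ l, f (np l) := by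
  classical
  set S : Finset (Fin 6) := Finset.univ.image piv with hS
  have hc : Sᶜ.card = 3 := by
    rw [Finset.card_compl, hS, Finset.card_image_of_injective _ hp]; simp
  refine ⟨Sᶜ.orderEmbOfFin hc, ?_, ?_⟩
  · intro i
    by_cases hi : i ∈ S
    · left
      rw [hS] at hi
      obtain ⟨j, _, hj⟩ := Finset.mem_image.1 hi
      exact ⟨j, hj.symm⟩
    · right
      have h1 : i ∈ Set.range (Sᶜ.orderEmbOfFin hc) := by
        rw [Finset.range_orderEmbOfFin]
        simpa using hi
      obtain ⟨l, hl⟩ := h1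
      exact ⟨l, hl.symm⟩
  · intro M _ f
    rw [← Finset.sum_add_sum_compl S f]
    congr 1
    · rw [hS, Finset.sum_image (fun _ _ _ _ h => hp h)]
    · have h2 : Sᶜ = Finset.univ.image (Sᶜ.orderEmbOfFin hc) := by
        ext i
        rw [← Finset.mem_coe, ← Finset.range_orderEmbOfFin Sᶜ hc]
        simp
      conv_lhs => rw [h2]
      rw [Finset.sum_image (fun _ _ _ _ h => (Sᶜ.orderEmbOfFin hc).injective h)]

theorem D_b {k : Subfield ℂ} (D : Derivation k ℂ ℂ) (T : Fin 6 → Fin 6 → Fin 6 → ℂ)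
    (hT : ∀ i j l, T i j l ∈ k) (x y z : Fin 6 → ℂ) :
    D (b T x y z) = b T (fun i => D (x i)) y z + b T x (fun i => D (y i)) z +
      b T x y (fun i => D (z i)) := by
  have hD : ∀ i j l, D (T i j l) = 0 := fun i j l => D.map_algebraMap (⟨T i j l, hT i j l⟩ : k)
  unfold b
  simp only [map_sum, ← Finset.sum_add_distrib]
  refine Finset.sum_congr rfl fun i _ => Finset.sum_congr rfl fun j _ =>
    Finset.sum_congr rfl fun l _ => ?_
  simp only [Derivation.leibniz, hD, smul_eq_mul]
  ring

theorem b_single (T : Fin 6 → Fin 6 → Fin 6 → ℂ) (i : Fin 6) (z : Fin 6 → ℂ) :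
    b T (Pi.single i 1) z z = ∑ j, ∑ k, T i j k * z j * z k := by
  unfold b
  rw [Finset.sum_eq_single i]
  · simp
  · intro j _ hj
    simp [Pi.single_eq_of_ne hj]
  · simp

theorem rig : Pool.Agent.Y201.LI.S_RIG := by
  intro k hk T hs hsm hT v hv hB
  obtain ⟨piv, hp, v', hpv, ⟨N, hN⟩, hspan⟩ := echelon v hv
  have hli : LinearIndependent ℂ v' := by
    rw [Fintype.linearIndependent_iff]
    intro g hg i
    have := congrFun hg (piv i)
    simpa [Finset.sum_apply, hpv] using this
  refine ⟨v', ?_, hli, hspan⟩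
  by_contra hcon
  push Not at hcon
  obtain ⟨i0, j0, hc⟩ := hcon
  obtain ⟨D, hD⟩ := exists_der k hk _ hc
  obtain ⟨np, hnp, hsum⟩ := exists_np piv hp
  -- the plane
  have hB' : ∀ i j l, b T (v' i) (v' j) (v' l) = 0 := by
    intro i j l
    rw [hN i, hN j, hN l, b_sum1]
    refine Finset.sum_eq_zero fun m _ => ?_
    rw [b_sum2 hs]
    have : ∑ a, N j a * b T (v m) (v a) (∑ m, N l m • v m) = 0 := by
      refine Finset.sum_eq_zero fun a _ => ?_
      rw [b_sum3 hs]
      have : ∑ c, N l c * b T (v m) (v a) (v c) = 0 := by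
        refine Finset.sum_eq_zero fun c _ => ?_
        rw [← Bf_eq, hB]; ring
      rw [this]; ring
    rw [this]; ring
  set w : Fin 3 → Fin 6 → ℂ := fun i j => D (v' i j) with hw
  have hE : ∀ i j l, b T (w i) (v' j) (v' l) + b T (w j) (v' i) (v' l) +
      b T (w l) (v' i) (v' j) = 0 := by
    intro i j l
    have h1 := D_b D T hT (v' i) (v' j) (v' l)
    rw [hB', map_zero] at h1
    have h2 : b T (v' i) (w j) (v' l) = b T (w j) (v' i) (v' l) := b_swap12 hs _ _ _
    have h3 : b T (v' i) (v' j) (w l) = b T (w l) (v' i) (v' j) := by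
      rw [b_swap23 hs, b_swap12 hs]
    rw [← h2, ← h3]
    exact h1.symm
  have hwp : ∀ i j, w i (piv j) = 0 := by
    intro i j
    simp only [hw, hpv]
    split_ifs
    · exact D.map_one_eq_zero
    · exact map_zero D
  -- the family
  set V : (Fin 3 → ℂ) → Fin 6 → ℂ := fun u => ∑ i, u i • v' i with hV
  set W : (Fin 3 → ℂ) → Fin 6 → ℂ := fun u => ∑ i, u i • w i with hW
  have hWV : ∀ u, b T (W u) (V u) (V u) = 0 := by
    intro u
    have h1 : b T (W u) (V u) (V u) =
        ∑ i, ∑ j, ∑ l, u i * u j * u l * b T (w i) (v' j) (v' l) := by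
      rw [hW, b_sum1]
      refine Finset.sum_congr rfl fun i _ => ?_
      simp only [hV]
      rw [b_sum2 hs, Finset.mul_sum]
      refine Finset.sum_congr rfl fun j _ => ?_
      rw [b_sum3 hs, Finset.mul_sum, Finset.mul_sum]
      refine Finset.sum_congr rfl fun l _ => ?_
      ring
    have h2 : 3 * b T (W u) (V u) (V u) = ∑ i, ∑ j, ∑ l, u i * u j * u l *
        (b T (w i) (v' j) (v' l) + b T (w j) (v' i) (v' l) + b T (w l) (v' i) (v' j)) := by
      rw [h1]
      simp only [Fin.sum_univ_three]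
      ring
    have h3 : 3 * b T (W u) (V u) (V u) = 0 := by
      rw [h2]
      refine Finset.sum_eq_zero fun i _ => Finset.sum_eq_zero fun j _ =>
        Finset.sum_eq_zero fun l _ => ?_
      rw [hE, mul_zero]
    linear_combination h3 / 3
  -- decomposition of vectors
  have hdec : ∀ x : Fin 6 → ℂ, x = ∑ j, x (piv j) • Pi.single (piv j) (1 : ℂ) +
      ∑ l, x (np l) • Pi.single (np l) (1 : ℂ) := by
    intro x
    refine Eq.trans ?_ (hsum (Fin 6 → ℂ) (fun i => x i • (Pi.single i (1 : ℂ) : Fin 6 → ℂ)))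
    funext i
    simp [Finset.sum_apply, Pi.single_apply]
  have hbdec : ∀ x y z : Fin 6 → ℂ, b T x y z = ∑ j, x (piv j) * b T (Pi.single (piv j) 1) y z +
      ∑ l, x (np l) * b T (Pi.single (np l) 1) y z := by
    intro x y z
    conv_lhs => rw [hdec x]
    have : b T (∑ j, x (piv j) • Pi.single (piv j) (1 : ℂ) +
      ∑ l, x (np l) • Pi.single (np l) (1 : ℂ)) y z =
      b T (∑ j, x (piv j) • Pi.single (piv j) (1 : ℂ)) y z +
      b T (∑ l, x (np l) • Pi.single (np l) (1 : ℂ)) y z := (bl T y z).map_add _ _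
    rw [this, b_sum1, b_sum1]
  have hq : ∀ l u, qf (fun i j => b T (Pi.single (np l) 1) (v' i) (v' j)) u =
      b T (Pi.single (np l) 1) (V u) (V u) := by
    intro l u
    simp only [hV]
    rw [b_sum2 hs, qf]
    refine Finset.sum_congr rfl fun i _ => ?_
    rw [b_sum3 hs, Finset.mul_sum]
    refine Finset.sum_congr rfl fun j _ => ?_
    ring
  have hL := syz (Matrix.of fun l i => w i (np l))
    (fun l i j => b T (Pi.single (np l) 1) (v' i) (v' j)) (by
      intro u
      have h1 := hWV u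
      rw [hbdec] at h1
      have h2 : ∀ j, W u (piv j) = 0 := by
        intro j
        simp [hW, Finset.sum_apply, hwp]
      simp only [h2, zero_mul, Finset.sum_const_zero, zero_add] at h1
      rw [← h1]
      refine Finset.sum_congr rfl fun l _ => ?_
      rw [hq]
      congr 1
      simp only [hW, Finset.sum_apply, Pi.smul_apply, smul_eq_mul, Matrix.of_apply]
      exact Finset.sum_congr rfl fun i _ => mul_comm _ _) (by
      intro u hu
      simp only [hq] at hu
      have h1 : ∀ i, b T (v' i) (V u) (V u) = 0 := by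
        intro i
        simp only [hV]
        rw [b_sum2 hs]
        refine Finset.sum_eq_zero fun j _ => ?_
        rw [b_sum3 hs]
        have : ∑ l, u l * b T (v' i) (v' j) (v' l) = 0 :=
          Finset.sum_eq_zero fun l _ => by rw [hB', mul_zero]
        rw [this, mul_zero]
      have h2 : ∀ j, b T (Pi.single (piv j) 1) (V u) (V u) = 0 := by
        intro j
        have h3 := h1 j
        rw [hbdec] at h3
        simpa [hu, hpv] using h3
      have h4 : V u = 0 := by
        apply hsm
        intro i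
        rw [← b_single]
        rcases hnp i with ⟨j, rfl⟩ | ⟨l, rfl⟩
        · exact h2 j
        · exact hu l
      funext j
      have h5 := congrFun h4 (piv j)
      simpa [hV, Finset.sum_apply, hpv] using h5)
  rcases hnp j0 with ⟨j, rfl⟩ | ⟨l, rfl⟩
  · have h1 := hwp i0 j
    simp only [hw, hD] at h1
    exact one_ne_zero h1
  · have h1 := congrFun (congrFun hL l) i0
    simp only [Matrix.of_apply, hw, hD, Matrix.zero_apply] at h1
    exact one_ne_zero h1

end Pool.Agent.R572.Rig
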